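import Pool.Agent.BCore.Main
import Pool.Agent.BCoreK.FixK

/-!
B-CORE in the K form (helper37): the final statement, helper57's proof with the window hypothesis
for `r * u1`.
-/

namespace Pool.Agent.BCoreK

open Pool.Agent.BCore

/-- `B-CORE`. `beta` bounded by 1; arbitrary weights `w` of modulus at most 1, supported on good
tuples such that `r * u1` has divisors in all windows. -/
theorem bcoreK : ∃ (C : ℝ) (c0 : ℕ), 0 < C ∧ ∀ (N R U V H Z : ℕ) (K B Y E T : ℝ) (a b1 b2 : ℤ)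
    (β : ℤ → ℂ) (w : ℕ → ℤ → ℕ → ℕ → ℕ → ℕ → ℤ → ℂ),
    1 ≤ R → 1 ≤ U → 1 ≤ V → 1 ≤ H → H ≤ N → 0 < K → K ≤ N → K ^ 3 = R * U ^ 2 * V ^ 4 →
    1 ≤ B → 0 ≤ Y → K * B ≤ Y ^ 2 * N → K ≤ Y ^ 4 * (R * U * V) →
    0 ≤ E → (H : ℝ) ≤ E ^ 2 * V ^ 2 → (H : ℝ) ^ 2 * Y ≤ E ^ 2 →
    2 ^ 10 * R * U ^ 2 * V ^ 4 * H * N ≤ Z → (∀ m : ℕ, 1 ≤ m → m ≤ Z → (tau m : ℝ) ≤ T) →
    1 + Real.log Z ≤ T → (∀ n, ‖β n‖ ≤ 1) → (∀ r l u1 v1 u2 v2 h, ‖w r l u1 v1 u2 v2 h‖ ≤ 1) →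
    (∀ r l u1 v1 u2 v2 h, w r l u1 v1 u2 v2 h ≠ 0 → Good a b1 b2 r u1 v1 u2 v2 ∧ Win H V K B (r * u1)) →
    ‖Tot N R U V H β a b1 b2 w‖ ≤ C * T ^ c0 * (N : ℝ) ^ 2 * (U : ℝ) ^ 2 * (V : ℝ) ^ 2 * E := by
  obtain ⟨C, c0, hC, hfix⟩ := fix_boundK
  refine ⟨C, c0 + 3, hC, ?_⟩
  intro N R U V H Z K B Y E T a b1 b2 β w hR hU hV hH hHN hK hKN hK3 hB hY hY1 hY2 hE hE1 hE2 hZ
    hT hTl hβ hw hwG
  have hHZ : H ≤ Z := by
    refine le_trans ?_ hZ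
    have h1 : 1 ≤ N := hH.trans hHN
    have : 1 * H * 1 ≤ 2 ^ 10 * R * U ^ 2 * V ^ 4 * H * N := by
      gcongr
      calc 1 = 1 * 1 * 1 ^ 2 * 1 ^ 4 := by norm_num
        _ ≤ 2 ^ 10 * R * U ^ 2 * V ^ 4 := by gcongr; norm_num
    simpa using this
  have hT1 : 1 ≤ T := by
    have := hT 1 le_rfl (hH.trans hHZ)
    simpa [tau] using this
  set Bd : ℝ := C * T ^ c0 * (N : ℝ) ^ 2 * (U : ℝ) ^ 2 * (V : ℝ) ^ 2 * E with hBd
  have hBd0 : 0 ≤ Bd := by positivity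
  rw [tot_eq _ _ _ _ _ _ _ _ _ _ hU]
  have hone : ∀ q ∈ Sg H, ‖(q.1 : ℂ) * TotG N R U V H β a b1 b2 w q.1 q.2.1 q.2.2‖ ≤
      Bd * (1 / (q.1 : ℝ)) := by
    intro q hq
    unfold Sg at hq
    rw [Finset.mem_sigma, Finset.mem_Icc, Finset.mem_product, Nat.mem_divisors,
      Nat.mem_divisors] at hq
    obtain ⟨⟨hg1, hgH⟩, ⟨he1, -⟩, ⟨he2, -⟩⟩ := hq
    have h := hfix N R U V H Z K B Y E T a b1 b2 β w q.1 q.2.1 q.2.2 hR hU hV hH hHN hK hKN hK3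
      hB hY hY1 hY2 hE hE1 hE2 hZ hT hTl hβ hw hwG hg1 hgH he1 he2
    have hg0 : (0 : ℝ) < q.1 := by exact_mod_cast hg1
    rw [norm_mul, Complex.norm_natCast]
    rw [mul_one_div, le_div_iff₀ hg0]
    calc (q.1 : ℝ) * ‖TotG N R U V H β a b1 b2 w q.1 q.2.1 q.2.2‖ * q.1
        = ‖TotG N R U V H β a b1 b2 w q.1 q.2.1 q.2.2‖ * (q.1 : ℝ) ^ 2 := by ring
      _ ≤ Bd := h
  refine (norm_sum_le_of_le _ hone).trans ?_
  rw [← Finset.mul_sum]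
  have hsum : (∑ q ∈ Sg H, (1 : ℝ) / (q.1 : ℝ)) ≤ T ^ 3 := by
    unfold Sg
    rw [Finset.sum_sigma]
    have h1 : ∀ g ∈ Finset.Icc 1 H, (∑ _e ∈ g.divisors ×ˢ g.divisors, (1 : ℝ) / (g : ℝ)) ≤
        T ^ 2 * (1 / (g : ℝ)) := by
      intro g hg
      obtain ⟨hg1, hgH⟩ := Finset.mem_Icc.mp hg
      rw [Finset.sum_const, Finset.card_product, nsmul_eq_mul]
      have ht := hT g hg1 (hgH.trans hHZ)
      unfold tau at ht
      push_cast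
      apply mul_le_mul_of_nonneg_right _ (by positivity)
      rw [sq]
      exact mul_le_mul ht ht (by positivity) (by linarith)
    refine (Finset.sum_le_sum h1).trans ?_
    rw [← Finset.mul_sum]
    have h2 : (∑ g ∈ Finset.Icc 1 H, (1 : ℝ) / (g : ℝ)) ≤ T := by
      have h3 := harmonic_le_one_add_log H
      have h4 : ((harmonic H : ℚ) : ℝ) = ∑ g ∈ Finset.Icc 1 H, (1 : ℝ) / (g : ℝ) := by
        rw [harmonic_eq_sum_Icc]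
        push_cast
        apply Finset.sum_congr rfl
        intro g _
        rw [one_div]
      rw [← h4]
      refine h3.trans (le_trans ?_ hTl)
      have : Real.log H ≤ Real.log Z := by
        apply Real.log_le_log
        · exact_mod_cast hH
        · exact_mod_cast hHZ
      linarith
    calc T ^ 2 * ∑ g ∈ Finset.Icc 1 H, (1 : ℝ) / (g : ℝ) ≤ T ^ 2 * T := by gcongr
      _ = T ^ 3 := by ring
  calc Bd * ∑ q ∈ Sg H, (1 : ℝ) / (q.1 : ℝ) ≤ Bd * T ^ 3 := by gcongr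
    _ = C * T ^ (c0 + 3) * (N : ℝ) ^ 2 * (U : ℝ) ^ 2 * (V : ℝ) ^ 2 * E := by
      rw [hBd, pow_add]
      ring

end Pool.Agent.BCoreK
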